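import Pool.Agent.V5helper35.CR6.FM.Ident

/-!
# Project CR6, job FMC: the fourth moment of the `L`-functions near the critical line
-/

set_option autoImplicit false

namespace Pool.Agent.V5helper35.CR6

open Complex MeasureTheory Filter Topology Set
open Pool.Agent.V5helper35.CR6.FM Pool.Agent.V5helper51.CR6

namespace FM

variable {q : ℕ} [NeZero q]

/-- the tail on `Re = x` -/
noncomputable def fT (Ψ : ZMod q → ℂ) (x : ℝ) (N : ℕ) (u : ℝ) : ℝ :=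
  ‖ZMod.LFunction Ψ ((x : ℂ) + u * I) - DP (co Ψ x) 0 N u‖

/-- the head on `Re = x` -/
noncomputable def fH (Ψ : ZMod q → ℂ) (x : ℝ) (N : ℕ) (u : ℝ) : ℝ := ‖DP (co Ψ x) 0 N u‖

omit [NeZero q] in
theorem fH_M4 {Ψ : ZMod q → ℂ} {B : ℝ} (hB : ∀ j, ‖Ψ j‖ ≤ B) {x : ℝ} (hx : 1 / 2 ≤ x) {N : ℕ} {T Λ : ℝ}
    (hN : 1 ≤ N) (hT : 0 < T) (hNT : (N : ℝ) ^ 2 ≤ 4 * T) (hΛ : 1 + Real.log ((N : ℝ) ^ 2) ≤ Λ) :
    M4 T (34 * B ^ 4 * Λ ^ 5 * T) (fH Ψ x N) := by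
  have hB0 : 0 ≤ B := (norm_nonneg _).trans (hB 0)
  have hN0 : (0 : ℝ) < N := by exact_mod_cast hN
  have hlog0 : 0 ≤ Real.log ((N : ℝ) ^ 2) := by
    have := Real.log_natCast_nonneg (N ^ 2)
    push_cast at this
    exact this
  have hΛ1 : 1 ≤ Λ := by linarith
  have hcoef : ∀ n ∈ Finset.Ioc 0 N, ‖co Ψ x n‖ ≤ B / √n := by
    intro n hn
    rw [Finset.mem_Ioc] at hn
    have hn1 : 1 ≤ n := by omega
    have hn0 : (0 : ℝ) < n := by exact_mod_cast hn1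
    refine (norm_co hB x n hn1).trans ?_
    have h1 : (n : ℝ) ^ (-x) ≤ (n : ℝ) ^ (-(1 / 2) : ℝ) := by
      apply Real.rpow_le_rpow_of_exponent_le
      · exact_mod_cast hn1
      · linarith
    have h2 : (n : ℝ) ^ (-(1 / 2) : ℝ) = 1 / √n := by
      rw [Real.rpow_neg hn0.le, ← Real.sqrt_eq_rpow, one_div]
    calc B * (n : ℝ) ^ (-x) ≤ B * (1 / √n) := mul_le_mul_of_nonneg_left (h1.trans h2.le) hB0
      _ = _ := by ring
  have h5 := M4.dp (T := T) hT.le hcoef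
  refine M4.mono h5 ?_
  have h6 : 8 * (N : ℝ) ^ 2 * (1 + Real.log ((N : ℝ) ^ 2)) ≤ 32 * T * Λ := by
    calc 8 * (N : ℝ) ^ 2 * (1 + Real.log ((N : ℝ) ^ 2)) ≤ 8 * (4 * T) * Λ :=
          mul_le_mul (by linarith) hΛ (by linarith) (by positivity)
      _ = _ := by ring
  have h7 : (1 + Real.log ((N : ℝ) ^ 2)) ^ 4 ≤ Λ ^ 4 := pow_le_pow_left₀ (by linarith) hΛ 4
  have h8 : 2 * T ≤ 2 * T * Λ := le_mul_of_one_le_right (by positivity) hΛ1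
  calc B ^ 4 * (2 * T + 8 * (N : ℝ) ^ 2 * (1 + Real.log ((N : ℝ) ^ 2))) * (1 + Real.log ((N : ℝ) ^ 2)) ^ 4
      ≤ B ^ 4 * (34 * T * Λ) * Λ ^ 4 := by
        refine mul_le_mul ?_ h7 (by positivity) (by positivity)
        exact mul_le_mul_of_nonneg_left (by linarith) (by positivity)
    _ = _ := by ring

/-- the pointwise bound -/
theorem pointwise (Φ : ZMod q → ℂ) (hΦ : ∀ j, ‖Φ j‖ ≤ 1) {N : ℕ} (hN : 1 ≤ N) {κ κ' T : ℝ} (hκ : 0 < κ)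
    (hκ1 : κ ≤ 1 / 4) (hκ' : 0 < κ') (hκ'1 : κ' ≤ 1) (hT : 0 < T)
    (m1 : ∃ S, M4 T S (fT Φ (3 / 2 + κ) N)) (m2 : ∃ S, M4 T S (fH Φ (1 / 2 + κ + κ') N))
    (m3 : ∀ Ψ : ZMod q → ℂ, (∀ j, ‖Ψ j‖ ≤ q) → ∃ S, M4 T S (fun u => fT Ψ (3 / 2) N (-u)))
    (m4 : ∀ Ψ : ZMod q → ℂ, (∀ j, ‖Ψ j‖ ≤ q) → ∃ S, M4 T S (fun u => fH Ψ (1 / 2) N (-u)))
    {t : ℝ} (ht : |t| ≤ T) :
    ‖ZMod.LFunction Φ (⟨1 / 2 + κ, t⟩ : ℂ)‖ ≤
      20 * (N * cv (fT Φ (3 / 2 + κ) N) t + (N : ℝ) ^ κ' / κ' * cv (fH Φ (1 / 2 + κ + κ') N) t +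
        q * (1 + T) / N * cv (fun u => fT (ZMod.dft Φ) (3 / 2) N (-u)) t +
        1 / κ * cv (fun u => fH (ZMod.dft Φ) (1 / 2) N (-u)) t +
        q * (1 + T) / N * cv (fun u => fT (ZMod.dft fun x => Φ (-x)) (3 / 2) N (-u)) t +
        1 / κ * cv (fun u => fH (ZMod.dft fun x => Φ (-x)) (1 / 2) N (-u)) t) := by
  set s : ℂ := ⟨1 / 2 + κ, t⟩ with hs
  have hsre : s.re = 1 / 2 + κ := rfl
  have hsim : s.im = t := rfl
  have hq : 1 ≤ q := NeZero.one_le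
  have hN0 : (0 : ℝ) < N := by exact_mod_cast hN
  have hN1 : (1 : ℝ) ≤ N := by exact_mod_cast hN
  have hs1 : 1 / 4 ≤ ‖s - 1‖ := by
    refine le_trans ?_ (Complex.abs_re_le_norm _)
    rw [sub_re, one_re, hsre, abs_of_neg (by linarith)]
    linarith
  have hs1' : 0 < ‖s - 1‖ := by linarith
  have hid := ident Φ hΦ hN hκ hκ1 hκ' hκ'1 hsre
  -- right, tail
  have b1 : ‖∫ v, LJ N s 1 (XR Φ N s) v‖ ≤ ‖s - 1‖ * (120 * (N * cv (fT Φ (3 / 2 + κ) N) t)) := by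
    obtain ⟨S, hS⟩ := m1
    have h := line_bound (XR Φ N s) hN hs1 (c := 1) (t := t) (D := 1) one_ne_zero (by rw [abs_one]; norm_num)
      zero_le_one hS.cont hS.nonneg hS.bdd (fun v => by
        have e : s + (((1 : ℝ) : ℂ) + v * I) = (((3 / 2 + κ : ℝ)) : ℂ) + ((t + v : ℝ) : ℂ) * I := by
          apply Complex.ext <;> simp [hsre, hsim]
          ring
        unfold XR
        rw [e, PP_line]
        have h0 : 0 ≤ fT Φ (3 / 2 + κ) N (t + v) := hS.nonneg _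
        have h1 : 0 ≤ |v| := abs_nonneg v
        show fT Φ (3 / 2 + κ) N (t + v) ≤ _
        nlinarith)
    refine h.trans (le_of_eq ?_)
    rw [Real.rpow_one, abs_one]
    ring
  -- right, head
  have b2 : ‖∫ v, LJ N s κ' (XP Φ N s) v‖ ≤
      ‖s - 1‖ * (120 * ((N : ℝ) ^ κ' / κ' * cv (fH Φ (1 / 2 + κ + κ') N) t)) := by
    obtain ⟨S, hS⟩ := m2
    have h := line_bound (XP Φ N s) hN hs1 (c := κ') (t := t) (D := 1) hκ'.ne' (by rw [abs_of_pos hκ']; linarith)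
      zero_le_one hS.cont hS.nonneg hS.bdd (fun v => by
        have e : s + ((κ' : ℂ) + v * I) = (((1 / 2 + κ + κ' : ℝ)) : ℂ) + ((t + v : ℝ) : ℂ) * I := by
          apply Complex.ext <;> simp [hsre, hsim]
        unfold XP
        rw [e, PP_line]
        have h0 : 0 ≤ fH Φ (1 / 2 + κ + κ') N (t + v) := hS.nonneg _
        have h1 : 0 ≤ |v| := abs_nonneg v
        show fH Φ (1 / 2 + κ + κ') N (t + v) ≤ _
        nlinarith)
    refine h.trans (le_of_eq ?_)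
    rw [abs_of_pos hκ']
    ring
  -- left, tail
  have b3 : ∀ (Ψ : ZMod q → ℂ) (ε : ℝ), (∀ j, ‖Ψ j‖ ≤ q) → |ε| ≤ 1 → ‖∫ v, LJ N s (-1 - κ) (YR Ψ ε N s) v‖ ≤
      ‖s - 1‖ * (120 * (q * (1 + T) / N * cv (fun u => fT Ψ (3 / 2) N (-u)) t)) := by
    intro Ψ ε hΨ hε
    obtain ⟨S, hS⟩ := m3 Ψ hΨ
    have hcv : 0 ≤ cv (fun u => fT Ψ (3 / 2) N (-u)) t := cv_nonneg hS.nonneg t
    have h := line_bound (YR Ψ ε N s) hN hs1 (c := -1 - κ) (t := t) (D := q * (1 + T)) (by intro h; linarith)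
      (by rw [abs_of_neg (by linarith)]; linarith) (by positivity) hS.cont hS.nonneg hS.bdd (fun v => by
        have e : 1 - (s + (((-1 - κ : ℝ) : ℂ) + v * I)) = (((3 / 2 : ℝ)) : ℂ) + ((-(t + v) : ℝ) : ℂ) * I := by
          apply Complex.ext
          · simp [hsre]
            ring
          · simp [hsim]
        unfold YR
        rw [e, PP_line, norm_mul]
        have h0 : 0 ≤ fT Ψ (3 / 2) N (-(t + v)) := hS.nonneg (t + v)
        have h1 := AA_three (q := q) hq ε hε (-(t + v))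
        have h2 : (q : ℝ) * (1 + |-(t + v)|) ≤ (1 + |v|) * (q * (1 + T)) := by
          rw [abs_neg]
          have h3 := abs_add_le t v
          have h4 : 0 ≤ |v| := abs_nonneg v
          have h5 : 1 + |t + v| ≤ (1 + |v|) * (1 + T) := by nlinarith
          calc (q : ℝ) * (1 + |t + v|) ≤ q * ((1 + |v|) * (1 + T)) := mul_le_mul_of_nonneg_left h5 (Nat.cast_nonneg _)
            _ = _ := by ring
        show ‖AA q ε (((3 / 2 : ℝ) : ℂ) + ((-(t + v) : ℝ) : ℂ) * I)‖ * fT Ψ (3 / 2) N (-(t + v)) ≤ _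
        calc _ ≤ ((1 + |v|) * (q * (1 + T))) * fT Ψ (3 / 2) N (-(t + v)) := mul_le_mul_of_nonneg_right (h1.trans h2) h0
          _ = _ := by ring)
    refine h.trans ?_
    refine mul_le_mul_of_nonneg_left ?_ hs1'.le
    have h6 : (N : ℝ) ^ (-1 - κ) / |-1 - κ| ≤ 1 / N := by
      have h7 : (N : ℝ) ^ (-1 - κ) ≤ 1 / N := by
        have : (1 : ℝ) / N = (N : ℝ) ^ (-1 : ℝ) := by rw [Real.rpow_neg_one, one_div]
        rw [this]
        exact Real.rpow_le_rpow_of_exponent_le hN1 (by linarith)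
      refine (div_le_self (by positivity) ?_).trans h7
      rw [abs_of_neg (by linarith)]; linarith
    calc 120 * ((N : ℝ) ^ (-1 - κ) / |-1 - κ|) * (q * (1 + T)) * cv (fun u => fT Ψ (3 / 2) N (-u)) t
        ≤ 120 * (1 / N) * (q * (1 + T)) * cv (fun u => fT Ψ (3 / 2) N (-u)) t := by
          refine mul_le_mul_of_nonneg_right ?_ hcv
          refine mul_le_mul_of_nonneg_right ?_ (by positivity)
          exact mul_le_mul_of_nonneg_left h6 (by norm_num)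
      _ = _ := by ring
  -- left, head
  have b4 : ∀ (Ψ : ZMod q → ℂ) (ε : ℝ), (∀ j, ‖Ψ j‖ ≤ q) → |ε| ≤ 1 → ‖∫ v, LJ N s (-κ) (YP Ψ ε N s) v‖ ≤
      ‖s - 1‖ * (120 * (1 / κ * cv (fun u => fH Ψ (1 / 2) N (-u)) t)) := by
    intro Ψ ε hΨ hε
    obtain ⟨S, hS⟩ := m4 Ψ hΨ
    have hcv : 0 ≤ cv (fun u => fH Ψ (1 / 2) N (-u)) t := cv_nonneg hS.nonneg t
    have h := line_bound (YP Ψ ε N s) hN hs1 (c := -κ) (t := t) (D := 1) (by intro h; linarith)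
      (by rw [abs_of_neg (by linarith)]; linarith) zero_le_one hS.cont hS.nonneg hS.bdd (fun v => by
        have e : 1 - (s + (((-κ : ℝ) : ℂ) + v * I)) = (((1 / 2 : ℝ)) : ℂ) + ((-(t + v) : ℝ) : ℂ) * I := by
          apply Complex.ext
          · simp [hsre]
            norm_num
          · simp [hsim]
        unfold YP
        rw [e, PP_line, norm_mul]
        have h0 : 0 ≤ fH Ψ (1 / 2) N (-(t + v)) := hS.nonneg (t + v)
        have h1 := AA_half (q := q) hq ε hε (-(t + v))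
        have h4 : 0 ≤ |v| := abs_nonneg v
        show ‖AA q ε (((1 / 2 : ℝ) : ℂ) + ((-(t + v) : ℝ) : ℂ) * I)‖ * fH Ψ (1 / 2) N (-(t + v)) ≤ _
        calc _ ≤ 1 * fH Ψ (1 / 2) N (-(t + v)) := mul_le_mul_of_nonneg_right h1 h0
          _ ≤ _ := by nlinarith)
    refine h.trans ?_
    refine mul_le_mul_of_nonneg_left ?_ hs1'.le
    have h6 : (N : ℝ) ^ (-κ) / |-κ| ≤ 1 / κ := by
      rw [abs_neg, abs_of_pos hκ]
      refine div_le_div_of_nonneg_right ?_ hκ.le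
      exact Real.rpow_le_one_of_one_le_of_nonpos hN1 (by linarith)
    calc 120 * ((N : ℝ) ^ (-κ) / |-κ|) * 1 * cv (fun u => fH Ψ (1 / 2) N (-u)) t
        ≤ 120 * (1 / κ) * 1 * cv (fun u => fH Ψ (1 / 2) N (-u)) t := by
          refine mul_le_mul_of_nonneg_right ?_ hcv
          refine mul_le_mul_of_nonneg_right ?_ (by norm_num)
          exact mul_le_mul_of_nonneg_left h6 (by norm_num)
      _ = _ := by ring
  have hB1 := dft_bound Φ hΦ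
  have hB2 := dft_bound (fun x => Φ (-x)) (fun j => hΦ (-j))
  have c1 := b3 (ZMod.dft Φ) 1 hB1 (by simp)
  have c2 := b4 (ZMod.dft Φ) 1 hB1 (by simp)
  have c3 := b3 (ZMod.dft fun x => Φ (-x)) (-1) hB2 (by simp)
  have c4 := b4 (ZMod.dft fun x => Φ (-x)) (-1) hB2 (by simp)
  have hnorm : 2 * Real.pi * (‖s - 1‖ * ‖ZMod.LFunction Φ s‖) ≤
      ‖s - 1‖ * (120 * (N * cv (fT Φ (3 / 2 + κ) N) t + (N : ℝ) ^ κ' / κ' * cv (fH Φ (1 / 2 + κ + κ') N) t +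
        q * (1 + T) / N * cv (fun u => fT (ZMod.dft Φ) (3 / 2) N (-u)) t +
        1 / κ * cv (fun u => fH (ZMod.dft Φ) (1 / 2) N (-u)) t +
        q * (1 + T) / N * cv (fun u => fT (ZMod.dft fun x => Φ (-x)) (3 / 2) N (-u)) t +
        1 / κ * cv (fun u => fH (ZMod.dft fun x => Φ (-x)) (1 / 2) N (-u)) t)) := by
    have e1 : 2 * Real.pi * (‖s - 1‖ * ‖ZMod.LFunction Φ s‖) = ‖2 * (Real.pi : ℂ) * ((s - 1) * ZMod.LFunction Φ s)‖ := by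
      rw [norm_mul, norm_mul, norm_mul, Complex.norm_real, Real.norm_of_nonneg Real.pi_pos.le]
      norm_num
    rw [e1, hid]
    refine (norm_sub_le _ _).trans ?_
    have d1 := norm_add_le (∫ v, LJ N s 1 (XR Φ N s) v) (∫ v, LJ N s κ' (XP Φ N s) v)
    have d2 := norm_add_le ((∫ v, LJ N s (-1 - κ) (YR (ZMod.dft Φ) 1 N s) v) + ∫ v, LJ N s (-κ) (YP (ZMod.dft Φ) 1 N s) v)
      ((∫ v, LJ N s (-1 - κ) (YR (ZMod.dft fun x => Φ (-x)) (-1) N s) v) +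
        ∫ v, LJ N s (-κ) (YP (ZMod.dft fun x => Φ (-x)) (-1) N s) v)
    have d3 := norm_add_le (∫ v, LJ N s (-1 - κ) (YR (ZMod.dft Φ) 1 N s) v) (∫ v, LJ N s (-κ) (YP (ZMod.dft Φ) 1 N s) v)
    have d4 := norm_add_le (∫ v, LJ N s (-1 - κ) (YR (ZMod.dft fun x => Φ (-x)) (-1) N s) v)
      (∫ v, LJ N s (-κ) (YP (ZMod.dft fun x => Φ (-x)) (-1) N s) v)
    linarith
  have hpi : (6 : ℝ) ≤ 2 * Real.pi := by have := Real.pi_gt_three; linarith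
  have h1 : 6 * (‖s - 1‖ * ‖ZMod.LFunction Φ s‖) ≤ 2 * Real.pi * (‖s - 1‖ * ‖ZMod.LFunction Φ s‖) :=
    mul_le_mul_of_nonneg_right hpi (by positivity)
  have h2 := h1.trans hnorm
  have h3 : ‖s - 1‖ * (6 * ‖ZMod.LFunction Φ s‖) ≤ ‖s - 1‖ * (120 * (N * cv (fT Φ (3 / 2 + κ) N) t + (N : ℝ) ^ κ' / κ' * cv (fH Φ (1 / 2 + κ + κ') N) t +
        q * (1 + T) / N * cv (fun u => fT (ZMod.dft Φ) (3 / 2) N (-u)) t +
        1 / κ * cv (fun u => fH (ZMod.dft Φ) (1 / 2) N (-u)) t +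
        q * (1 + T) / N * cv (fun u => fT (ZMod.dft fun x => Φ (-x)) (3 / 2) N (-u)) t +
        1 / κ * cv (fun u => fH (ZMod.dft fun x => Φ (-x)) (1 / 2) N (-u)) t)) := by
    refine le_trans (le_of_eq ?_) h2
    ring
  have h4 := le_of_mul_le_mul_left h3 hs1'
  linarith

theorem pow4_six (a b c d e f : ℝ) : (a + b + c + d + e + f) ^ 4 ≤ 216 * (a ^ 4 + b ^ 4 + c ^ 4 + d ^ 4 + e ^ 4 + f ^ 4) := by
  have h := pow4_sum_le (Finset.univ : Finset (Fin 6)) ![a, b, c, d, e, f]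
  simp [Fin.sum_univ_succ] at h
  have e1 : a + (b + (c + (d + (e + f)))) = a + b + c + d + e + f := by ring
  rw [e1] at h
  norm_num at h
  linarith

end FM

open FM

theorem fmc : S_FMC := by
  obtain ⟨C, hC⟩ : ∃ C : ℕ, 10 ^ 22 ≤ C := ⟨_, le_rfl⟩
  have hC9 : 9 ≤ C := le_trans (by norm_num) hC
  have hCr : (10 : ℝ) ^ 22 ≤ C := by exact_mod_cast hC
  refine ⟨C, ?_⟩
  intro q hq χ κ T hT hκ hκ1
  set Φ : ZMod q → ℂ := fun j => χ j with hΦdef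
  have hΦ : ∀ j, ‖Φ j‖ ≤ 1 := fun j => DirichletCharacter.norm_le_one χ j
  have hL : ∀ s, DirichletCharacter.LFunction χ s = ZMod.LFunction Φ s := fun s => rfl
  simp_rw [hL]
  have hT0 : 0 < T := by linarith
  have hq1 : (1 : ℝ) ≤ q := by exact_mod_cast NeZero.one_le
  have hlogT : 1 ≤ Real.log T := by
    rw [Real.le_log_iff_exp_le hT0]
    have := Real.exp_one_lt_d9
    linarith
  have hκinv : 4 ≤ 1 / κ := by
    rw [le_div_iff₀ hκ]; linarith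
  set ℓ : ℝ := 1 / κ + Real.log T with hℓ
  have hℓ5 : 5 ≤ ℓ := by linarith
  have hℓ0 : 0 < ℓ := by linarith
  -- N
  set N : ℕ := ⌈√T⌉₊ with hNdef
  have hsT : 0 < √T := Real.sqrt_pos.mpr hT0
  have hsT1 : 1 ≤ √T := by rw [Real.one_le_sqrt]; linarith
  have hN : 1 ≤ N := Nat.one_le_ceil_iff.mpr hsT
  have hNl : √T ≤ N := Nat.le_ceil _
  have hNu : (N : ℝ) ≤ 2 * √T := by
    have := Nat.ceil_lt_add_one hsT.le
    linarith
  have hN0 : (0 : ℝ) < N := by exact_mod_cast hN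
  have hsq : √T ^ 2 = T := Real.sq_sqrt hT0.le
  have hN2 : (N : ℝ) ^ 2 ≤ 4 * T := by nlinarith
  have hN2l : T ≤ (N : ℝ) ^ 2 := by nlinarith
  have hlogN : Real.log N ≤ ℓ := by
    have h1 : Real.log N ≤ Real.log (2 * √T) := Real.log_le_log hN0 hNu
    rw [Real.log_mul (by norm_num) hsT.ne', Real.log_sqrt hT0.le] at h1
    have := Real.log_two_lt_d9
    linarith
  have hlogN0 : 0 ≤ Real.log N := Real.log_natCast_nonneg N
  -- J
  set J : ℕ := ⌈3 * ℓ⌉₊ with hJdef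
  have hJl : 3 * ℓ ≤ J := Nat.le_ceil _
  have hJu : (J : ℝ) ≤ 4 * ℓ := by
    have := Nat.ceil_lt_add_one (show 0 ≤ 3 * ℓ by positivity)
    linarith
  have hlog2 : (0.5 : ℝ) < Real.log 2 := by have := Real.log_two_gt_d9; linarith
  have hlog2' : Real.log 2 < 0.7 := by have := Real.log_two_lt_d9; linarith
  have hJN : N ≤ 2 ^ J := by
    have h1 : Real.log N ≤ Real.log ((2 : ℝ) ^ J) := by
      rw [Real.log_pow]
      nlinarith
    have h2 : (N : ℝ) ≤ (2 : ℝ) ^ J := (Real.log_le_log_iff hN0 (by positivity)).mp h1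
    exact_mod_cast h2
  have hΛ : 1 + Real.log (((2 ^ J * N : ℕ) : ℝ) ^ 2) ≤ 8 * ℓ := by
    have e1 : (((2 ^ J * N : ℕ) : ℝ)) = (2 : ℝ) ^ J * (N : ℝ) := by push_cast; ring
    rw [e1, Real.log_pow, Real.log_mul (by positivity) hN0.ne', Real.log_pow]
    push_cast
    nlinarith
  have hΛ' : 1 + Real.log ((N : ℝ) ^ 2) ≤ 8 * ℓ := by
    rw [Real.log_pow]
    push_cast
    linarith
  set κ' : ℝ := 1 / ℓ with hκ'def
  have hκ' : 0 < κ' := by positivity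
  have hκ'1 : κ' ≤ 1 := by rw [hκ'def, div_le_one hℓ0]; linarith
  have hNκ : (N : ℝ) ^ κ' ≤ 3 := by
    rw [Real.rpow_def_of_pos hN0]
    have h1 : Real.log N * κ' ≤ 1 := by
      rw [hκ'def, mul_one_div, div_le_one hℓ0]
      exact hlogN
    have := Real.exp_one_lt_d9
    linarith [Real.exp_le_exp.mpr h1]
  -- the M4 data
  set St : ℝ → ℝ := fun B => 130 * ((J : ℝ) + 1) ^ 4 * B ^ 4 * (8 * ℓ) ^ 5 * T / (N : ℝ) ^ 4 with hSt
  set Sh : ℝ → ℝ := fun B => 34 * B ^ 4 * (8 * ℓ) ^ 5 * T with hSh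
  have m1 : M4 T (St 1) (fT Φ (3 / 2 + κ) N) := tail_M4 hΦ (by linarith) hN hT0 hN2 hJN hΛ
  have m2 : M4 T (Sh 1) (fH Φ (1 / 2 + κ + κ') N) := fH_M4 hΦ (by linarith) hN hT0 hN2 hΛ'
  have m3 : ∀ Ψ : ZMod q → ℂ, (∀ j, ‖Ψ j‖ ≤ q) → M4 T (St q) (fun u => fT Ψ (3 / 2) N (-u)) :=
    fun Ψ hΨ => (show M4 T (St q) (fT Ψ (3 / 2) N) from tail_M4 hΨ le_rfl hN hT0 hN2 hJN hΛ).neg
  have m4 : ∀ Ψ : ZMod q → ℂ, (∀ j, ‖Ψ j‖ ≤ q) → M4 T (Sh q) (fun u => fH Ψ (1 / 2) N (-u)) :=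
    fun Ψ hΨ => (show M4 T (Sh q) (fH Ψ (1 / 2) N) from fH_M4 hΨ le_rfl hN hT0 hN2 hΛ').neg
  have hB1 := dft_bound Φ hΦ
  have hB2 := dft_bound (fun x => Φ (-x)) (fun j => hΦ (-j))
  obtain ⟨k1, k1'⟩ := m1.conv hT0.le
  obtain ⟨k2, k2'⟩ := m2.conv hT0.le
  obtain ⟨k3, k3'⟩ := (m3 _ hB1).conv hT0.le
  obtain ⟨k4, k4'⟩ := (m4 _ hB1).conv hT0.le
  obtain ⟨k5, k5'⟩ := (m3 _ hB2).conv hT0.le
  obtain ⟨k6, k6'⟩ := (m4 _ hB2).conv hT0.le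
  have hpt : ∀ t : ℝ, |t| ≤ T → _ := fun t ht => pointwise Φ hΦ hN hκ hκ1 hκ' hκ'1 hT0 ⟨_, m1⟩ ⟨_, m2⟩
    (fun Ψ hΨ => ⟨_, m3 Ψ hΨ⟩) (fun Ψ hΨ => ⟨_, m4 Ψ hΨ⟩) ht
  set g1 := cv (fT Φ (3 / 2 + κ) N)
  set g2 := cv (fH Φ (1 / 2 + κ + κ') N)
  set g3 := cv (fun u => fT (ZMod.dft Φ) (3 / 2) N (-u))
  set g4 := cv (fun u => fH (ZMod.dft Φ) (1 / 2) N (-u))
  set g5 := cv (fun u => fT (ZMod.dft fun x => Φ (-x)) (3 / 2) N (-u))
  set g6 := cv (fun u => fH (ZMod.dft fun x => Φ (-x)) (1 / 2) N (-u))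
  set a2 : ℝ := (N : ℝ) ^ κ' / κ' with ha2
  set a3 : ℝ := q * (1 + T) / N with ha3
  set a4 : ℝ := 1 / κ with ha4
  have hLc : Continuous fun t : ℝ => ‖ZMod.LFunction Φ (⟨1 / 2 + κ, t⟩ : ℂ)‖ := by
    refine Continuous.norm ?_
    rw [continuous_iff_continuousAt]
    intro u
    have h1 : ContinuousAt (ZMod.LFunction Φ) (⟨1 / 2 + κ, u⟩ : ℂ) :=
      (L_diff Φ (by simp only; intro h; linarith)).continuousAt
    have h2 : ContinuousAt (fun t : ℝ => (⟨1 / 2 + κ, t⟩ : ℂ)) u := by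
      have e : (fun t : ℝ => (⟨1 / 2 + κ, t⟩ : ℂ)) = fun t : ℝ => ((1 / 2 + κ : ℝ) : ℂ) + t * I := by
        ext t
        apply Complex.ext <;> simp
      rw [e]
      fun_prop
    exact ContinuousAt.comp (f := fun t : ℝ => (⟨1 / 2 + κ, t⟩ : ℂ)) h1 h2
  have hint : ∫ t in (-T)..T, ‖ZMod.LFunction Φ (⟨1 / 2 + κ, t⟩ : ℂ)‖ ^ 4 ≤
      ∫ t in (-T)..T, (20 ^ 4 * 216) * (((N : ℝ) * g1 t) ^ 4 + (a2 * g2 t) ^ 4 + (a3 * g3 t) ^ 4 + (a4 * g4 t) ^ 4 +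
        (a3 * g5 t) ^ 4 + (a4 * g6 t) ^ 4) := by
    refine intervalIntegral.integral_mono_on (by linarith) ?_ ?_ (fun t ht => ?_)
    · exact (hLc.pow 4).intervalIntegrable _ _
    · have : Continuous fun t : ℝ => (20 ^ 4 * 216) * (((N : ℝ) * g1 t) ^ 4 + (a2 * g2 t) ^ 4 + (a3 * g3 t) ^ 4 + (a4 * g4 t) ^ 4 +
        (a3 * g5 t) ^ 4 + (a4 * g6 t) ^ 4) := by fun_prop
      exact this.intervalIntegrable _ _
    · have h1 := hpt t (abs_le.mpr ⟨ht.1, ht.2⟩)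
      have h2 := pow_le_pow_left₀ (norm_nonneg _) h1 4
      refine h2.trans ?_
      rw [mul_pow, mul_assoc]
      exact mul_le_mul_of_nonneg_left (pow4_six _ _ _ _ _ _) (by norm_num)
  have hsplit : ∫ t in (-T)..T, (20 ^ 4 * 216) * (((N : ℝ) * g1 t) ^ 4 + (a2 * g2 t) ^ 4 + (a3 * g3 t) ^ 4 + (a4 * g4 t) ^ 4 +
        (a3 * g5 t) ^ 4 + (a4 * g6 t) ^ 4) = (20 ^ 4 * 216) * ((N : ℝ) ^ 4 * (∫ t in (-T)..T, g1 t ^ 4) +
        a2 ^ 4 * (∫ t in (-T)..T, g2 t ^ 4) + a3 ^ 4 * (∫ t in (-T)..T, g3 t ^ 4) + a4 ^ 4 * (∫ t in (-T)..T, g4 t ^ 4) +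
        a3 ^ 4 * (∫ t in (-T)..T, g5 t ^ 4) + a4 ^ 4 * (∫ t in (-T)..T, g6 t ^ 4)) := by
    have ii : ∀ (a : ℝ) (g : ℝ → ℝ), Continuous g → IntervalIntegrable (fun t => (a * g t) ^ 4) volume (-T) T :=
      fun a g hg => Continuous.intervalIntegrable (by fun_prop) _ _
    have jj : ∀ (a : ℝ) (g : ℝ → ℝ), ∫ t in (-T)..T, (a * g t) ^ 4 = a ^ 4 * ∫ t in (-T)..T, g t ^ 4 := by
      intro a g
      rw [← intervalIntegral.integral_const_mul]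
      refine intervalIntegral.integral_congr fun t _ => ?_
      ring
    rw [intervalIntegral.integral_const_mul,
      intervalIntegral.integral_add (((((ii (N : ℝ) g1 k1).add (ii a2 g2 k2)).add (ii a3 g3 k3)).add (ii a4 g4 k4)).add (ii a3 g5 k5)) (ii a4 g6 k6),
      intervalIntegral.integral_add ((((ii (N : ℝ) g1 k1).add (ii a2 g2 k2)).add (ii a3 g3 k3)).add (ii a4 g4 k4)) (ii a3 g5 k5),
      intervalIntegral.integral_add (((ii (N : ℝ) g1 k1).add (ii a2 g2 k2)).add (ii a3 g3 k3)) (ii a4 g4 k4),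
      intervalIntegral.integral_add ((ii (N : ℝ) g1 k1).add (ii a2 g2 k2)) (ii a3 g3 k3),
      intervalIntegral.integral_add (ii (N : ℝ) g1 k1) (ii a2 g2 k2), jj, jj, jj, jj, jj, jj]
  rw [hsplit] at hint
  -- the bounds
  have hJ1 : ((J : ℝ) + 1) ^ 4 ≤ (5 * ℓ) ^ 4 := pow_le_pow_left₀ (by positivity) (by linarith) 4
  have hq8 : (1 : ℝ) ≤ q ^ 8 := one_le_pow₀ hq1
  have hq4 : (q : ℝ) ^ 4 ≤ q ^ 8 := pow_le_pow_right₀ hq1 (by norm_num)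
  set Z : ℝ := q ^ 8 * T * ℓ ^ 9 with hZ
  have hZ0 : 0 < Z := by positivity
  have hTl : T * ℓ ^ 9 ≤ Z := by
    rw [hZ, mul_assoc]
    exact le_mul_of_one_le_left (by positivity) hq8
  have hTl0 : 0 < T * ℓ ^ 9 := by positivity
  have c1 : (N : ℝ) ^ 4 * (40 * St 1) ≤ 10 ^ 13 * Z := by
    have e1 : (N : ℝ) ^ 4 * (40 * St 1) = 40 * 130 * ((J : ℝ) + 1) ^ 4 * (8 * ℓ) ^ 5 * T := by
      simp only [hSt]
      field_simp
    rw [e1]
    calc 40 * 130 * ((J : ℝ) + 1) ^ 4 * (8 * ℓ) ^ 5 * T ≤ 40 * 130 * (5 * ℓ) ^ 4 * (8 * ℓ) ^ 5 * T := by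
          refine mul_le_mul_of_nonneg_right ?_ hT0.le
          refine mul_le_mul_of_nonneg_right ?_ (by positivity)
          exact mul_le_mul_of_nonneg_left hJ1 (by norm_num)
      _ = 106496000000 * (T * ℓ ^ 9) := by ring
      _ ≤ 10 ^ 13 * Z := by
          refine mul_le_mul (by norm_num) hTl hTl0.le (by norm_num)
  have c2 : a2 ^ 4 * (40 * Sh 1) ≤ 10 ^ 13 * Z := by
    have e0 : a2 ≤ 3 * ℓ := by
      rw [ha2, hκ'def, div_div_eq_mul_div, div_one]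
      exact mul_le_mul_of_nonneg_right hNκ hℓ0.le
    have e00 : 0 ≤ a2 := by rw [ha2]; positivity
    have e1 : a2 ^ 4 ≤ (3 * ℓ) ^ 4 := pow_le_pow_left₀ e00 e0 4
    have hSh0 : 0 ≤ 40 * Sh 1 := by simp only [hSh]; positivity
    calc a2 ^ 4 * (40 * Sh 1) ≤ (3 * ℓ) ^ 4 * (40 * Sh 1) := mul_le_mul_of_nonneg_right e1 hSh0
      _ = 3609722880 * (T * ℓ ^ 9) := by simp only [hSh]; ring
      _ ≤ 10 ^ 13 * Z := by
          refine mul_le_mul (by norm_num) hTl hTl0.le (by norm_num)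
  have c3 : a3 ^ 4 * (40 * St q) ≤ 10 ^ 13 * Z := by
    have e1 : a3 ^ 4 * (40 * St q) = 40 * 130 * ((J : ℝ) + 1) ^ 4 * (8 * ℓ) ^ 5 * T * (q ^ 8 * ((1 + T) ^ 4 / ((N : ℝ) ^ 2) ^ 4)) := by
      simp only [hSt, ha3]
      field_simp
    have e2 : (1 + T) ^ 4 / ((N : ℝ) ^ 2) ^ 4 ≤ 16 := by
      rw [div_le_iff₀ (by positivity)]
      calc (1 + T) ^ 4 ≤ (2 * (N : ℝ) ^ 2) ^ 4 := pow_le_pow_left₀ (by positivity) (by linarith) 4
        _ = _ := by ring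
    rw [e1]
    have e3 : (q : ℝ) ^ 8 * ((1 + T) ^ 4 / ((N : ℝ) ^ 2) ^ 4) ≤ q ^ 8 * 16 :=
      mul_le_mul_of_nonneg_left e2 (by positivity)
    have e4 : 40 * 130 * ((J : ℝ) + 1) ^ 4 * (8 * ℓ) ^ 5 * T ≤ 40 * 130 * (5 * ℓ) ^ 4 * (8 * ℓ) ^ 5 * T := by
      refine mul_le_mul_of_nonneg_right ?_ hT0.le
      refine mul_le_mul_of_nonneg_right ?_ (by positivity)
      exact mul_le_mul_of_nonneg_left hJ1 (by norm_num)
    calc 40 * 130 * ((J : ℝ) + 1) ^ 4 * (8 * ℓ) ^ 5 * T * (q ^ 8 * ((1 + T) ^ 4 / ((N : ℝ) ^ 2) ^ 4))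
        ≤ (40 * 130 * (5 * ℓ) ^ 4 * (8 * ℓ) ^ 5 * T) * (q ^ 8 * 16) :=
          mul_le_mul e4 e3 (by positivity) (by positivity)
      _ = 1703936000000 * Z := by rw [hZ]; ring
      _ ≤ 10 ^ 13 * Z := mul_le_mul_of_nonneg_right (by norm_num) hZ0.le
  have c4 : a4 ^ 4 * (40 * Sh q) ≤ 10 ^ 13 * Z := by
    have e0 : a4 ≤ ℓ := by rw [hℓ]; linarith
    have e00 : 0 ≤ a4 := by linarith
    have e1 : a4 ^ 4 ≤ ℓ ^ 4 := pow_le_pow_left₀ e00 e0 4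
    have hSh0 : 0 ≤ 40 * Sh q := by simp only [hSh]; positivity
    calc a4 ^ 4 * (40 * Sh q) ≤ ℓ ^ 4 * (40 * Sh q) := mul_le_mul_of_nonneg_right e1 hSh0
      _ = 44564480 * ((q : ℝ) ^ 4 * (T * ℓ ^ 9)) := by simp only [hSh]; ring
      _ ≤ 10 ^ 13 * Z := by
          refine mul_le_mul (by norm_num) ?_ (by positivity) (by norm_num)
          rw [hZ, mul_assoc]
          exact mul_le_mul_of_nonneg_right hq4 hTl0.le
  have d1 := mul_le_mul_of_nonneg_left k1' (show 0 ≤ (N : ℝ) ^ 4 by positivity)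
  have d2 := mul_le_mul_of_nonneg_left k2' (show 0 ≤ a2 ^ 4 by positivity)
  have d3 := mul_le_mul_of_nonneg_left k3' (show 0 ≤ a3 ^ 4 by positivity)
  have d4 := mul_le_mul_of_nonneg_left k4' (show 0 ≤ a4 ^ 4 by positivity)
  have d5 := mul_le_mul_of_nonneg_left k5' (show 0 ≤ a3 ^ 4 by positivity)
  have d6 := mul_le_mul_of_nonneg_left k6' (show 0 ≤ a4 ^ 4 by positivity)
  have hfin : ∫ t in (-T)..T, ‖ZMod.LFunction Φ (⟨1 / 2 + κ, t⟩ : ℂ)‖ ^ 4 ≤ 10 ^ 22 * Z := by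
    linarith
  refine hfin.trans ?_
  have g1' : (q : ℝ) ^ 8 ≤ q ^ C := pow_le_pow_right₀ hq1 (by omega)
  have g2' : ℓ ^ 9 ≤ ℓ ^ C := pow_le_pow_right₀ (by linarith) hC9
  calc 10 ^ 22 * Z = (10 ^ 22 * q ^ 8 * T) * ℓ ^ 9 := by rw [hZ]; ring
    _ ≤ (C * q ^ C * T) * ℓ ^ C := by
        refine mul_le_mul ?_ g2' (by positivity) (by positivity)
        refine mul_le_mul_of_nonneg_right ?_ hT0.le
        exact mul_le_mul hCr g1' (by positivity) (by positivity)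

end Pool.Agent.V5helper35.CR6
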