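import Pool.Agent.V5helper51.CR6.Stm
import Pool.Agent.V5helper35.CR.FD

/-!
# Project CR6, job SMB: smooth blocks of all lengths (Kusmin-Landau in residue classes)
-/

set_option autoImplicit false

namespace Pool.Agent.V5helper35.CR6

open Finset Pool.Agent.Q236.CR Pool.Agent.V5helper51.CR6
open Pool.Agent.H469R2.NK (e)
open Pool.Agent.V5helper35.CR (abel_log norm_chi_le)

theorem nt_eq_e (τ : ℝ) (n : ℕ) (hn : 1 ≤ n) : nt τ n = e (-(τ / (2 * Real.pi) * Real.log n)) := by
  have hn0 : (n : ℂ) ≠ 0 := by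
    have : n ≠ 0 := by omega
    exact_mod_cast this
  unfold nt e
  rw [Complex.cpow_def_of_ne_zero hn0]
  congr 1
  have h1 : Complex.log (n : ℂ) = ((Real.log n : ℝ) : ℂ) := by
    rw [Complex.ofReal_log (Nat.cast_nonneg n)]; simp
  rw [h1]
  have hpi : Real.pi ≠ 0 := Real.pi_ne_zero
  have h2 : 2 * Real.pi * -(τ / (2 * Real.pi) * Real.log n) = - (τ * Real.log n) := by
    field_simp
  rw [h2]
  push_cast
  ring

/-- the members of a residue class in a block -/
theorem class_eq (q b u v : ℕ) (hq : 1 ≤ q) (hb : b < q) :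
    (Finset.Ioc u v).filter (fun n => n % q = b) =
      (Finset.range ((v + q - b) / q - (u + q - b) / q)).image (fun k => q * ((u + q - b) / q + k) + b) := by
  ext n
  simp only [Finset.mem_filter, Finset.mem_Ioc, Finset.mem_image, Finset.mem_range]
  constructor
  · rintro ⟨⟨h1, h2⟩, h3⟩
    have h4 : q * (n / q) + b = n := by rw [← h3]; exact Nat.div_add_mod n q
    have h5 : (u + q - b) / q ≤ n / q := by
      rw [Nat.div_le_iff_le_mul_add_pred (by omega)]
      omega
    have h6 : n / q < (v + q - b) / q := by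
      rw [Nat.lt_div_iff_mul_lt (by omega)]
      have : n / q * q = q * (n / q) := by ring
      omega
    refine ⟨n / q - (u + q - b) / q, by omega, ?_⟩
    rw [Nat.add_sub_cancel' h5]
    exact h4
  · rintro ⟨k, hk, rfl⟩
    have hk2 : (u + q - b) / q + k < (v + q - b) / q := by omega
    rw [Nat.lt_div_iff_mul_lt (by omega)] at hk2
    have h1 : (u + q - b) / q + k = (u + q - b) / q + k := rfl
    have h7 : u + q - b < q * ((u + q - b) / q + 1) := by
      have := Nat.lt_mul_div_succ (u + q - b) (show 0 < q by omega)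
      exact this
    refine ⟨⟨?_, ?_⟩, ?_⟩
    · have : q * ((u + q - b) / q + 1) ≤ q * ((u + q - b) / q + k) + q := by
        rw [← Nat.mul_succ]
        exact Nat.mul_le_mul_left q (by omega)
      omega
    · have : ((u + q - b) / q + k) * q = q * ((u + q - b) / q + k) := by ring
      omega
    · rw [Nat.mul_add_mod, Nat.mod_eq_of_lt hb]

theorem class_bound_pos (q b M u v : ℕ) (τ : ℝ) (hq : 1 ≤ q) (hb : b < q) (hM : 1 ≤ M) (hu : M ≤ u + 1)
    (hv : v ≤ 2 * M) (hτ : 1 ≤ τ) (hbig : 4 * q * τ < M) :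
    ‖∑ n ∈ (Finset.Ioc u v).filter (fun n => n % q = b), nt τ n‖ ≤ 40 * (M / (q * τ)) := by
  have hq0 : (0 : ℝ) < q := by exact_mod_cast hq
  have hq1 : (1 : ℝ) ≤ q := by exact_mod_cast hq
  have hM0 : (0 : ℝ) < M := by exact_mod_cast hM
  have hqM : (q : ℝ) ≤ M := by nlinarith
  rw [class_eq q b u v hq hb]
  set m0 := (u + q - b) / q with hm0
  set N := (v + q - b) / q - m0 with hN
  rw [Finset.sum_image (by
    intro a _ c _ h
    simp only at h
    have h1 : q * (m0 + a) = q * (m0 + c) := by omega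
    have h2 := Nat.eq_of_mul_eq_mul_left (by omega) h1
    omega)]
  -- bounds for the members
  have hmem : ∀ k : ℕ, k < N → M ≤ q * (m0 + k) + b ∧ q * (m0 + k) + b ≤ 2 * M := by
    intro k hk
    have h1 : q * (m0 + k) + b ∈ (Finset.Ioc u v).filter (fun n => n % q = b) := by
      rw [class_eq q b u v hq hb]
      exact Finset.mem_image.mpr ⟨k, Finset.mem_range.mpr hk, rfl⟩
    rw [Finset.mem_filter, Finset.mem_Ioc] at h1
    omega
  set g : ℕ → ℝ := fun k => ((q * (m0 + k) + b : ℕ) : ℝ) with hg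
  set x : ℕ → ℝ := fun k => τ / (2 * Real.pi) * Real.log (g k) with hx
  have hpi : 0 < Real.pi := Real.pi_pos
  have hc : 0 < τ / (2 * Real.pi) := by positivity
  have hgs : ∀ k, g (k + 1) = g k + q := by
    intro k
    simp only [hg]
    push_cast
    ring
  have hgpos : ∀ k, k < N → (M : ℝ) ≤ g k ∧ g k ≤ 2 * M := by
    intro k hk
    obtain ⟨h1, h2⟩ := hmem k hk
    exact ⟨by simp only [hg]; exact_mod_cast h1, by simp only [hg]; exact_mod_cast h2⟩
  have hdiff : ∀ k, k < N → x (k + 1) - x k = τ / (2 * Real.pi) * Real.log (1 + q / g k) := by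
    intro k hk
    obtain ⟨h1, h2⟩ := hgpos k hk
    have hg0 : 0 < g k := hM0.trans_le h1
    simp only [hx]
    rw [hgs k, ← mul_sub, ← Real.log_div (by positivity) hg0.ne']
    congr 2
    field_simp
  have hlow : ∀ k, k < N → q / (3 * M) ≤ Real.log (1 + q / g k) := by
    intro k hk
    obtain ⟨h1, h2⟩ := hgpos k hk
    have hg0 : 0 < g k := hM0.trans_le h1
    have h3 : 0 < 1 + q / g k := by positivity
    have h4 := Real.one_sub_inv_le_log_of_pos h3
    have h5 : 1 - (1 + q / g k)⁻¹ = q / (g k + q) := by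
      field_simp
      ring
    rw [h5] at h4
    refine le_trans ?_ h4
    refine div_le_div_of_nonneg_left hq0.le (by positivity) (by linarith)
  have hupp : ∀ k, k < N → Real.log (1 + q / g k) ≤ q / M := by
    intro k hk
    obtain ⟨h1, h2⟩ := hgpos k hk
    have hg0 : 0 < g k := hM0.trans_le h1
    have h3 : 0 < 1 + q / g k := by positivity
    have h4 := Real.log_le_sub_one_of_pos h3
    have h5 : (q : ℝ) / g k ≤ q / M := div_le_div_of_nonneg_left hq0.le hM0 h1
    linarith
  set θ : ℝ := τ / (2 * Real.pi) * (q / (3 * M)) with hθ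
  have hθ0 : 0 < θ := by positivity
  have hupp2 : τ / (2 * Real.pi) * (q / M) ≤ 1 / 8 := by
    have h1 : τ / (2 * Real.pi) * (q / M) = (q * τ / M) / (2 * Real.pi) := by ring
    rw [h1]
    have h2 : q * τ / M ≤ 1 / 4 := by
      rw [div_le_iff₀ hM0]; linarith
    rw [div_le_iff₀ (by positivity)]
    have := Real.pi_gt_three
    nlinarith
  have hθ1 : θ ≤ 1 / 8 := by
    refine le_trans ?_ hupp2
    simp only [hθ]
    refine mul_le_mul_of_nonneg_left ?_ hc.le
    exact div_le_div_of_nonneg_left hq0.le hM0 (by linarith)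
  have key := Pool.Agent.H469R2.NK.kusmin_landau_anti x N hθ0 (by
      intro k hk
      rw [hdiff k hk]
      exact mul_le_mul_of_nonneg_left (hlow k hk) hc.le) (by
      intro k hk
      rw [hdiff k hk]
      have := mul_le_mul_of_nonneg_left (hupp k hk) hc.le
      linarith) (by
      intro k hk
      rw [hdiff k (by omega)]
      have h1 := hdiff (k + 1) hk
      have h2 : x (k + 2) - x (k + 1) = x (k + 1 + 1) - x (k + 1) := rfl
      rw [h2, h1]
      refine mul_le_mul_of_nonneg_left ?_ hc.le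
      obtain ⟨h3, h4⟩ := hgpos k (by omega)
      have hg0 : 0 < g k := hM0.trans_le h3
      have h5 : g k ≤ g (k + 1) := by rw [hgs]; linarith
      refine Real.log_le_log (by have := hg0.trans_le h5; positivity) ?_
      have : (q : ℝ) / g (k + 1) ≤ q / g k := div_le_div_of_nonneg_left hq0.le hg0 h5
      linarith)
  have h1 : ∑ k ∈ Finset.range N, nt τ (q * (m0 + k) + b) = ∑ k ∈ Finset.range N, e (-(x k)) := by
    refine Finset.sum_congr rfl (fun k hk => ?_)
    rw [Finset.mem_range] at hk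
    have h2 := (hmem k hk).1
    rw [nt_eq_e τ _ (by omega)]
  rw [h1, Pool.Agent.H469R2.NK.norm_sum_neg]
  refine key.trans ?_
  have h2 : 2 / θ = 12 * Real.pi / 4 * (4 * (M / (q * τ))) := by
    simp only [hθ]
    field_simp
    ring
  rw [h2]
  have h3 : 0 ≤ (M : ℝ) / (q * τ) := by positivity
  have h4 : 12 * Real.pi / 4 ≤ 10 := by have := Real.pi_lt_d2; linarith
  nlinarith

theorem nt_neg_conj (τ : ℝ) (n : ℕ) : nt (-τ) n = (starRingEnd ℂ) (nt τ n) := by
  rcases Nat.eq_zero_or_pos n with h | h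
  · subst h
    unfold nt
    by_cases hτ : τ = 0
    · subst hτ; simp
    · have h1 : (-((-τ : ℝ) : ℂ) * Complex.I) ≠ 0 := by
        simp [hτ]
      have h2 : (-((τ : ℝ) : ℂ) * Complex.I) ≠ 0 := by
        simp [hτ]
      rw [Nat.cast_zero, Complex.zero_cpow h1, Complex.zero_cpow h2]
      simp
  · rw [nt_eq_e _ _ h, nt_eq_e _ _ h, Pool.Agent.H469R2.NK.conj_e]
    congr 1
    ring

theorem class_bound (q b M u v : ℕ) (τ : ℝ) (hq : 1 ≤ q) (hb : b < q) (hM : 1 ≤ M) (hu : M ≤ u + 1)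
    (hv : v ≤ 2 * M) (hτ : 1 ≤ |τ|) (hbig : 4 * q * |τ| < M) :
    ‖∑ n ∈ (Finset.Ioc u v).filter (fun n => n % q = b), nt τ n‖ ≤ 40 * (M / (q * |τ|)) := by
  rcases le_total 0 τ with h | h
  · rw [abs_of_nonneg h] at *
    exact class_bound_pos q b M u v τ hq hb hM hu hv hτ hbig
  · rw [abs_of_nonpos h] at *
    have h1 := class_bound_pos q b M u v (-τ) hq hb hM hu hv hτ hbig
    refine le_of_eq_of_le ?_ h1
    rw [← Complex.norm_conj, map_sum]
    congr 1
    refine Finset.sum_congr rfl (fun n _ => ?_)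
    rw [nt_neg_conj]

theorem log_two_mul_le (M v : ℕ) (hM : 1 ≤ M) (hv : v ≤ 2 * M) : Real.log v ≤ 1 + Real.log M := by
  have hM0 : (0 : ℝ) < M := by exact_mod_cast hM
  have hl : 0 ≤ Real.log M := Real.log_natCast_nonneg M
  rcases Nat.eq_zero_or_pos v with h0 | h0
  · subst h0; simp; linarith
  have h4 : Real.log v ≤ Real.log (2 * M) := Real.log_le_log (by exact_mod_cast h0) (by exact_mod_cast hv)
  rw [Real.log_mul (by norm_num) hM0.ne'] at h4
  have := Real.log_two_lt_d9
  linarith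

theorem norm_nt (τ : ℝ) (n : ℕ) (hn : 1 ≤ n) : ‖nt τ n‖ = 1 := by
  rw [nt_eq_e τ n hn, Pool.Agent.H469R2.NK.norm_e]

theorem main (hchr : S_CHR) : ∃ C : ℝ, 1 ≤ C ∧ ∀ (q : ℕ) (_ : NeZero q) (χ : DirichletCharacter ℂ q) (M u v : ℕ)
    (τ : ℝ), 1 ≤ M → M ≤ u + 1 → v ≤ 2 * M → 1 ≤ |τ| →
    ‖∑ n ∈ Finset.Ioc u v, χ (n : ZMod q) * nt τ n‖ ≤ C * q ^ 2 * (√|τ| + M / |τ|) * (1 + Real.log M) := by
  obtain ⟨C, hC1, hC⟩ := hchr.2
  refine ⟨18 * C + 41, by linarith, ?_⟩
  intro q hq χ M u v τ hM hu hv hτ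
  have hq1 : 1 ≤ q := Nat.one_le_iff_ne_zero.mpr hq.out
  have hq0 : (0 : ℝ) < q := by exact_mod_cast hq1
  have hq1' : (1 : ℝ) ≤ q := by exact_mod_cast hq1
  have hM0 : (0 : ℝ) < M := by exact_mod_cast hM
  have hM1 : (1 : ℝ) ≤ M := by exact_mod_cast hM
  have hτ0 : (0 : ℝ) < |τ| := by linarith
  have hl : 0 ≤ Real.log M := Real.log_natCast_nonneg M
  have hs : 1 ≤ √|τ| := by rw [Real.one_le_sqrt]; exact hτ
  have hs0 : 0 < √|τ| := by linarith
  have hs2 : √|τ| * √|τ| = |τ| := Real.mul_self_sqrt hτ0.le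
  have hMτ : 0 ≤ (M : ℝ) / |τ| := by positivity
  have hq2 : (q : ℝ) ≤ (q : ℝ) ^ 2 := by nlinarith
  have hq2' : (1 : ℝ) ≤ (q : ℝ) ^ 2 := by nlinarith
  rcases lt_or_ge v u with hvu | huv
  · rw [Finset.Ioc_eq_empty (by omega)]
    simp only [Finset.sum_empty, norm_zero]
    positivity
  by_cases hbig : 4 * q * |τ| < M
  · -- Kusmin-Landau
    have h1 : ∑ n ∈ Finset.Ioc u v, χ (n : ZMod q) * nt τ n =
        ∑ b ∈ Finset.range q, ∑ n ∈ (Finset.Ioc u v).filter (fun n => n % q = b), χ (n : ZMod q) * nt τ n := by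
      rw [Finset.sum_fiberwise_of_maps_to]
      intro n _
      rw [Finset.mem_range]
      exact Nat.mod_lt n (by omega)
    have h2 : ∀ b ∈ Finset.range q, ‖∑ n ∈ (Finset.Ioc u v).filter (fun n => n % q = b), χ (n : ZMod q) * nt τ n‖ ≤
        40 * (M / (q * |τ|)) := by
      intro b hb
      rw [Finset.mem_range] at hb
      have h3 : ∑ n ∈ (Finset.Ioc u v).filter (fun n => n % q = b), χ (n : ZMod q) * nt τ n =
          χ (b : ZMod q) * ∑ n ∈ (Finset.Ioc u v).filter (fun n => n % q = b), nt τ n := by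
        rw [Finset.mul_sum]
        refine Finset.sum_congr rfl (fun n hn => ?_)
        rw [Finset.mem_filter] at hn
        have h4 : ((n : ℕ) : ZMod q) = (b : ZMod q) := by
          rw [ZMod.natCast_eq_natCast_iff]
          rw [Nat.ModEq, hn.2, Nat.mod_eq_of_lt hb]
        rw [h4]
      rw [h3, norm_mul]
      calc ‖χ (b : ZMod q)‖ * ‖∑ n ∈ (Finset.Ioc u v).filter (fun n => n % q = b), nt τ n‖
          ≤ 1 * (40 * (M / (q * |τ|))) :=
            mul_le_mul (norm_chi_le χ b) (class_bound q b M u v τ hq1 hb hM hu hv hτ hbig) (norm_nonneg _) zero_le_one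
        _ = _ := one_mul _
    rw [h1]
    refine (norm_sum_le _ _).trans ((Finset.sum_le_sum h2).trans ?_)
    rw [Finset.sum_const, Finset.card_range, nsmul_eq_mul]
    have h5 : (q : ℝ) * (40 * (M / (q * |τ|))) = 40 * (M / |τ|) := by
      field_simp
    rw [h5]
    have h6 : 40 * ((M : ℝ) / |τ|) ≤ (18 * C + 41) * (√|τ| + M / |τ|) := by nlinarith
    calc 40 * ((M : ℝ) / |τ|) ≤ (18 * C + 41) * (√|τ| + M / |τ|) := h6
      _ ≤ (18 * C + 41) * (√|τ| + M / |τ|) * ((q : ℝ) ^ 2 * (1 + Real.log M)) := by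
          refine le_mul_of_one_le_right (by positivity) ?_
          nlinarith
      _ = _ := by ring
  · push Not at hbig
    -- second part of CHR
    have hblock : ∀ N N' : ℕ, M ≤ N → N ≤ 2 * M → N ≤ N' → N' ≤ 2 * N →
        ‖∑ n ∈ Finset.Ioc N N', χ (n : ZMod q) * nt τ n‖ ≤ 18 * C * q ^ 2 * √|τ| * (1 + Real.log M) := by
      intro N N' h1 h2 h3 h4
      have h5 := hC q hq χ N N' τ (by omega) h3 h4 hτ
      refine h5.trans ?_
      have h6 : (N : ℝ) / √|τ| ≤ 8 * q * √|τ| := by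
        rw [div_le_iff₀ hs0]
        have : (N : ℝ) ≤ 2 * M := by exact_mod_cast h2
        nlinarith
      have h7 : Real.log N ≤ 1 + Real.log M := log_two_mul_le M N hM h2
      have h8 : √|τ| + N / √|τ| ≤ 9 * q * √|τ| := by nlinarith
      have hlN : 0 ≤ Real.log N := Real.log_natCast_nonneg N
      calc (q : ℝ) * (C * (√|τ| + N / √|τ|) * (1 + Real.log N))
          ≤ q * (C * (9 * q * √|τ|) * (2 * (1 + Real.log M))) := by
            refine mul_le_mul_of_nonneg_left ?_ hq0.le
            refine mul_le_mul ?_ (by linarith) (by linarith) (by positivity)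
            exact mul_le_mul_of_nonneg_left h8 (by linarith)
        _ = 18 * C * q ^ 2 * √|τ| * (1 + Real.log M) := by ring
    have hfin : ‖∑ n ∈ Finset.Ioc u v, χ (n : ZMod q) * nt τ n‖ ≤
        1 + 18 * C * q ^ 2 * √|τ| * (1 + Real.log M) := by
      rcases Nat.lt_or_ge u M with h1 | h1
      · rcases Nat.lt_or_ge v M with h2 | h2
        · have h3 : v = u := by omega
          subst h3
          simp only [Finset.Ioc_self, Finset.sum_empty, norm_zero]
          positivity
        · have hu1 : u + 1 = M := by omega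
          have h3 : ∑ n ∈ Finset.Ioc u M, χ (n : ZMod q) * nt τ n + ∑ n ∈ Finset.Ioc M v, χ (n : ZMod q) * nt τ n =
              ∑ n ∈ Finset.Ioc u v, χ (n : ZMod q) * nt τ n :=
            Finset.sum_Ioc_consecutive _ (by omega) h2
          have h4 : ∑ n ∈ Finset.Ioc u M, χ (n : ZMod q) * nt τ n = χ (M : ZMod q) * nt τ M := by
            rw [← hu1, Finset.sum_Ioc_succ_top (le_refl u)]
            simp
          rw [← h3, h4]
          refine (norm_add_le _ _).trans (add_le_add ?_ (hblock M v le_rfl (by omega) h2 hv))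
          rw [norm_mul, norm_nt τ M hM, mul_one]
          exact norm_chi_le χ M
      · refine (hblock u v h1 (by omega) huv (by omega)).trans ?_
        linarith
    refine hfin.trans ?_
    have h9 : (1 : ℝ) ≤ q ^ 2 * √|τ| * (1 + Real.log M) := by
      have h10 : (1 : ℝ) ≤ q ^ 2 * √|τ| := by nlinarith
      nlinarith
    have h10 : 0 ≤ (q : ℝ) ^ 2 * (M / |τ|) * (1 + Real.log M) := by positivity
    calc 1 + 18 * C * q ^ 2 * √|τ| * (1 + Real.log M)
        ≤ (18 * C + 41) * (q ^ 2 * √|τ| * (1 + Real.log M)) := by nlinarith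
      _ ≤ (18 * C + 41) * (q ^ 2 * √|τ| * (1 + Real.log M)) +
          (18 * C + 41) * (q ^ 2 * (M / |τ|) * (1 + Real.log M)) := by
          have : 0 ≤ (18 * C + 41) * ((q : ℝ) ^ 2 * (M / |τ|) * (1 + Real.log M)) :=
            mul_nonneg (by linarith) h10
          linarith
      _ = _ := by ring

theorem smb (hchr : S_CHR) : S_SMB := by
  obtain ⟨C, hC1, hC⟩ := main hchr
  refine ⟨2 * C, by linarith, ?_⟩
  intro q hq χ M u v τ hM hu hv hτ
  have hq1 : 1 ≤ q := Nat.one_le_iff_ne_zero.mpr hq.out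
  have hM0 : (0 : ℝ) < M := by exact_mod_cast hM
  have hτ0 : (0 : ℝ) < |τ| := by linarith
  have hl : 0 ≤ Real.log M := Real.log_natCast_nonneg M
  have hA : 0 ≤ C * q ^ 2 * (√|τ| + M / |τ|) * (1 + Real.log M) := by positivity
  refine ⟨(hC q hq χ M u v τ hM hu hv hτ).trans ?_, ?_⟩
  · have : 2 * C * q ^ 2 * (√|τ| + M / |τ|) * (1 + Real.log M) =
        2 * (C * q ^ 2 * (√|τ| + M / |τ|) * (1 + Real.log M)) := by ring
    rw [this]; linarith
  rcases lt_or_ge v u with hvu | huv
  · rw [Finset.Ioc_eq_empty (by omega)]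
    simp only [Finset.sum_empty, norm_zero]
    positivity
  have h1 : ∑ n ∈ Finset.Ioc u v, (χ (n : ZMod q) * (Real.log n : ℂ)) * nt τ n =
      ∑ n ∈ Finset.Ioc u v, (χ (n : ZMod q) * nt τ n) * (Real.log n : ℂ) :=
    Finset.sum_congr rfl (fun n _ => by ring)
  rw [h1]
  have h2 := abel_log (fun n => χ (n : ZMod q) * nt τ n) u v
    (C * q ^ 2 * (√|τ| + M / |τ|) * (1 + Real.log M)) huv
    (fun w h1 h2 => hC q hq χ M u w τ hM hu (by omega) hτ)
  refine h2.trans ?_
  have h3 := log_two_mul_le M v hM hv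
  calc 2 * (C * q ^ 2 * (√|τ| + M / |τ|) * (1 + Real.log M)) * Real.log v
      ≤ 2 * (C * q ^ 2 * (√|τ| + M / |τ|) * (1 + Real.log M)) * (1 + Real.log M) :=
        mul_le_mul_of_nonneg_left h3 (by linarith)
    _ = _ := by ring

end Pool.Agent.V5helper35.CR6
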